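import Pool.Agent.Work.MP_f1799f_co.LP.CD.Data
set_option linter.defProp false
namespace Pool.Agent.Work.MP_f1799f_co.LP.CD
noncomputable section
def ck11 : chkAll cl11 = true := by decide +kernel
def ck27 : chkAll cl27 = true := by decide +kernel
def ck43 : chkAll cl43 = true := by decide +kernel
def ck59 : chkAll cl59 = true := by decide +kernel
def ck75 : chkAll cl75 = true := by decide +kernel
def ck91 : chkAll cl91 = true := by decide +kernel
def ck107 : chkAll cl107 = true := by decide +kernel
def ck123 : chkAll cl123 = true := by decide +kernel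
def ck139 : chkAll cl139 = true := by decide +kernel
def ck155 : chkAll cl155 = true := by decide +kernel
def ck171 : chkAll cl171 = true := by decide +kernel
def ck187 : chkAll cl187 = true := by decide +kernel
def ck203 : chkAll cl203 = true := by decide +kernel
def ck219 : chkAll cl219 = true := by decide +kernel
def ck235 : chkAll cl235 = true := by decide +kernel
theorem ckG11 : ∀ c ∈ clG11, chkAll c = true :=
  (List.forall_mem_cons.2 ⟨ck11,
    (List.forall_mem_cons.2 ⟨ck27,
    (List.forall_mem_cons.2 ⟨ck43,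
    (List.forall_mem_cons.2 ⟨ck59,
    (List.forall_mem_cons.2 ⟨ck75,
    (List.forall_mem_cons.2 ⟨ck91,
    (List.forall_mem_cons.2 ⟨ck107,
    (List.forall_mem_cons.2 ⟨ck123,
    (List.forall_mem_cons.2 ⟨ck139,
    (List.forall_mem_cons.2 ⟨ck155,
    (List.forall_mem_cons.2 ⟨ck171,
    (List.forall_mem_cons.2 ⟨ck187,
    (List.forall_mem_cons.2 ⟨ck203,
    (List.forall_mem_cons.2 ⟨ck219,
    (List.forall_mem_cons.2 ⟨ck235,
    (fun _ h => nomatch h)⟩)⟩)⟩)⟩)⟩)⟩)⟩)⟩)⟩)⟩)⟩)⟩)⟩)⟩)⟩)
end
end Pool.Agent.Work.MP_f1799f_co.LP.CD
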