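import Pool.Agent.Work.MP_f1799f_co.LP.CD.Data
set_option linter.defProp false
namespace Pool.Agent.Work.MP_f1799f_co.LP.CD
noncomputable section
def ck13 : chkAll cl13 = true := by decide +kernel
def ck29 : chkAll cl29 = true := by decide +kernel
def ck45 : chkAll cl45 = true := by decide +kernel
def ck61 : chkAll cl61 = true := by decide +kernel
def ck77 : chkAll cl77 = true := by decide +kernel
def ck93 : chkAll cl93 = true := by decide +kernel
def ck109 : chkAll cl109 = true := by decide +kernel
def ck125 : chkAll cl125 = true := by decide +kernel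
def ck141 : chkAll cl141 = true := by decide +kernel
def ck157 : chkAll cl157 = true := by decide +kernel
def ck173 : chkAll cl173 = true := by decide +kernel
def ck189 : chkAll cl189 = true := by decide +kernel
def ck205 : chkAll cl205 = true := by decide +kernel
def ck221 : chkAll cl221 = true := by decide +kernel
def ck237 : chkAll cl237 = true := by decide +kernel
theorem ckG13 : ∀ c ∈ clG13, chkAll c = true :=
  (List.forall_mem_cons.2 ⟨ck13,
    (List.forall_mem_cons.2 ⟨ck29,
    (List.forall_mem_cons.2 ⟨ck45,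
    (List.forall_mem_cons.2 ⟨ck61,
    (List.forall_mem_cons.2 ⟨ck77,
    (List.forall_mem_cons.2 ⟨ck93,
    (List.forall_mem_cons.2 ⟨ck109,
    (List.forall_mem_cons.2 ⟨ck125,
    (List.forall_mem_cons.2 ⟨ck141,
    (List.forall_mem_cons.2 ⟨ck157,
    (List.forall_mem_cons.2 ⟨ck173,
    (List.forall_mem_cons.2 ⟨ck189,
    (List.forall_mem_cons.2 ⟨ck205,
    (List.forall_mem_cons.2 ⟨ck221,
    (List.forall_mem_cons.2 ⟨ck237,
    (fun _ h => nomatch h)⟩)⟩)⟩)⟩)⟩)⟩)⟩)⟩)⟩)⟩)⟩)⟩)⟩)⟩)⟩)
end
end Pool.Agent.Work.MP_f1799f_co.LP.CD
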