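import Pool.Agent.Work.MP_f1799f_co.LP.CD.Data
set_option linter.defProp false
namespace Pool.Agent.Work.MP_f1799f_co.LP.CD
noncomputable section
def ck5 : chkAll cl5 = true := by decide +kernel
def ck21 : chkAll cl21 = true := by decide +kernel
def ck37 : chkAll cl37 = true := by decide +kernel
def ck53 : chkAll cl53 = true := by decide +kernel
def ck69 : chkAll cl69 = true := by decide +kernel
def ck85 : chkAll cl85 = true := by decide +kernel
def ck101 : chkAll cl101 = true := by decide +kernel
def ck117 : chkAll cl117 = true := by decide +kernel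
def ck133 : chkAll cl133 = true := by decide +kernel
def ck149 : chkAll cl149 = true := by decide +kernel
def ck165 : chkAll cl165 = true := by decide +kernel
def ck181 : chkAll cl181 = true := by decide +kernel
def ck197 : chkAll cl197 = true := by decide +kernel
def ck213 : chkAll cl213 = true := by decide +kernel
def ck229 : chkAll cl229 = true := by decide +kernel
def ck245 : chkAll cl245 = true := by decide +kernel
theorem ckG5 : ∀ c ∈ clG5, chkAll c = true :=
  (List.forall_mem_cons.2 ⟨ck5,
    (List.forall_mem_cons.2 ⟨ck21,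
    (List.forall_mem_cons.2 ⟨ck37,
    (List.forall_mem_cons.2 ⟨ck53,
    (List.forall_mem_cons.2 ⟨ck69,
    (List.forall_mem_cons.2 ⟨ck85,
    (List.forall_mem_cons.2 ⟨ck101,
    (List.forall_mem_cons.2 ⟨ck117,
    (List.forall_mem_cons.2 ⟨ck133,
    (List.forall_mem_cons.2 ⟨ck149,
    (List.forall_mem_cons.2 ⟨ck165,
    (List.forall_mem_cons.2 ⟨ck181,
    (List.forall_mem_cons.2 ⟨ck197,
    (List.forall_mem_cons.2 ⟨ck213,
    (List.forall_mem_cons.2 ⟨ck229,
    (List.forall_mem_cons.2 ⟨ck245,
    (fun _ h => nomatch h)⟩)⟩)⟩)⟩)⟩)⟩)⟩)⟩)⟩)⟩)⟩)⟩)⟩)⟩)⟩)⟩)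
end
end Pool.Agent.Work.MP_f1799f_co.LP.CD
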