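import Pool.Agent.Work.MP_f1799f_co.LP.CD.Data
set_option linter.defProp false
namespace Pool.Agent.Work.MP_f1799f_co.LP.CD
noncomputable section
def ck7 : chkAll cl7 = true := by decide +kernel
def ck23 : chkAll cl23 = true := by decide +kernel
def ck39 : chkAll cl39 = true := by decide +kernel
def ck55 : chkAll cl55 = true := by decide +kernel
def ck71 : chkAll cl71 = true := by decide +kernel
def ck87 : chkAll cl87 = true := by decide +kernel
def ck103 : chkAll cl103 = true := by decide +kernel
def ck119 : chkAll cl119 = true := by decide +kernel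
def ck135 : chkAll cl135 = true := by decide +kernel
def ck151 : chkAll cl151 = true := by decide +kernel
def ck167 : chkAll cl167 = true := by decide +kernel
def ck183 : chkAll cl183 = true := by decide +kernel
def ck199 : chkAll cl199 = true := by decide +kernel
def ck215 : chkAll cl215 = true := by decide +kernel
def ck231 : chkAll cl231 = true := by decide +kernel
theorem ckG7 : ∀ c ∈ clG7, chkAll c = true :=
  (List.forall_mem_cons.2 ⟨ck7,
    (List.forall_mem_cons.2 ⟨ck23,
    (List.forall_mem_cons.2 ⟨ck39,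
    (List.forall_mem_cons.2 ⟨ck55,
    (List.forall_mem_cons.2 ⟨ck71,
    (List.forall_mem_cons.2 ⟨ck87,
    (List.forall_mem_cons.2 ⟨ck103,
    (List.forall_mem_cons.2 ⟨ck119,
    (List.forall_mem_cons.2 ⟨ck135,
    (List.forall_mem_cons.2 ⟨ck151,
    (List.forall_mem_cons.2 ⟨ck167,
    (List.forall_mem_cons.2 ⟨ck183,
    (List.forall_mem_cons.2 ⟨ck199,
    (List.forall_mem_cons.2 ⟨ck215,
    (List.forall_mem_cons.2 ⟨ck231,
    (fun _ h => nomatch h)⟩)⟩)⟩)⟩)⟩)⟩)⟩)⟩)⟩)⟩)⟩)⟩)⟩)⟩)⟩)
end
end Pool.Agent.Work.MP_f1799f_co.LP.CD
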