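import Pool.Agent.Work.MP_f1799f_co.LP.CD.Data
set_option linter.defProp false
namespace Pool.Agent.Work.MP_f1799f_co.LP.CD
noncomputable section
def ck8 : chkAll cl8 = true := by decide +kernel
def ck24 : chkAll cl24 = true := by decide +kernel
def ck40 : chkAll cl40 = true := by decide +kernel
def ck56 : chkAll cl56 = true := by decide +kernel
def ck72 : chkAll cl72 = true := by decide +kernel
def ck88 : chkAll cl88 = true := by decide +kernel
def ck104 : chkAll cl104 = true := by decide +kernel
def ck120 : chkAll cl120 = true := by decide +kernel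
def ck136 : chkAll cl136 = true := by decide +kernel
def ck152 : chkAll cl152 = true := by decide +kernel
def ck168 : chkAll cl168 = true := by decide +kernel
def ck184 : chkAll cl184 = true := by decide +kernel
def ck200 : chkAll cl200 = true := by decide +kernel
def ck216 : chkAll cl216 = true := by decide +kernel
def ck232 : chkAll cl232 = true := by decide +kernel
theorem ckG8 : ∀ c ∈ clG8, chkAll c = true :=
  (List.forall_mem_cons.2 ⟨ck8,
    (List.forall_mem_cons.2 ⟨ck24,
    (List.forall_mem_cons.2 ⟨ck40,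
    (List.forall_mem_cons.2 ⟨ck56,
    (List.forall_mem_cons.2 ⟨ck72,
    (List.forall_mem_cons.2 ⟨ck88,
    (List.forall_mem_cons.2 ⟨ck104,
    (List.forall_mem_cons.2 ⟨ck120,
    (List.forall_mem_cons.2 ⟨ck136,
    (List.forall_mem_cons.2 ⟨ck152,
    (List.forall_mem_cons.2 ⟨ck168,
    (List.forall_mem_cons.2 ⟨ck184,
    (List.forall_mem_cons.2 ⟨ck200,
    (List.forall_mem_cons.2 ⟨ck216,
    (List.forall_mem_cons.2 ⟨ck232,
    (fun _ h => nomatch h)⟩)⟩)⟩)⟩)⟩)⟩)⟩)⟩)⟩)⟩)⟩)⟩)⟩)⟩)⟩)
end
end Pool.Agent.Work.MP_f1799f_co.LP.CD
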