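import Pool.Agent.Work.MP_f1799f_co.Ver0
import Pool.Agent.Work.MP_f1799f_co.LP.CD.Data
set_option linter.defProp false
namespace Pool.Agent.Work.MP_f1799f_co.LP.CD
noncomputable section
def v_vc : vcL.all (fun e => chkV e.2.1 e.2.2) = true := by decide +kernel
def v_gc : chkV b3 gcL = true := by decide +kernel
def v_sw : gcL.all (fun c => Nat.beq (appl 10 swS c) c) = true := by decide +kernel
def v_n1 : cmax ≤ 2 ^ 43 := by decide +kernel
def v_n2 : 6 * (gcL.length * 4 ^ b3) ≤ 2 ^ 43 := by decide +kernel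
def v_f : allL fL (fun x => Nat.ble x (2 ^ 44)) = true := by decide +kernel
def v_kc : kcf + (cbound + 105 * (cmax + 6 * (gcL.length * 4 ^ b3))) + 1 = 2 ^ 55 := by
  decide +kernel
def v_w0 : allN 64 (fun e => chkW vcf vbf p5L cmax (0 + 16 * e) (wdf 0 e)) = true := by
  decide +kernel
def v_w1 : allN 64 (fun e => chkW vcf vbf p5L cmax (1 + 16 * e) (wdf 1 e)) = true := by
  decide +kernel
def v_w3 : allN 64 (fun e => chkW vcf vbf p5L cmax (3 + 16 * e) (wdf 3 e)) = true := by
  decide +kernel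
def v_w7 : allN 64 (fun e => chkW vcf vbf p5L cmax (7 + 16 * e) (wdf 7 e)) = true := by
  decide +kernel
end
end Pool.Agent.Work.MP_f1799f_co.LP.CD
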