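import Pool.Agent.Work.MP_f1799f_co.LP.CD.Data
set_option linter.defProp false
namespace Pool.Agent.Work.MP_f1799f_co.LP.CD
noncomputable section
def ck9 : chkAll cl9 = true := by decide +kernel
def ck25 : chkAll cl25 = true := by decide +kernel
def ck41 : chkAll cl41 = true := by decide +kernel
def ck57 : chkAll cl57 = true := by decide +kernel
def ck73 : chkAll cl73 = true := by decide +kernel
def ck89 : chkAll cl89 = true := by decide +kernel
def ck105 : chkAll cl105 = true := by decide +kernel
def ck121 : chkAll cl121 = true := by decide +kernel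
def ck137 : chkAll cl137 = true := by decide +kernel
def ck153 : chkAll cl153 = true := by decide +kernel
def ck169 : chkAll cl169 = true := by decide +kernel
def ck185 : chkAll cl185 = true := by decide +kernel
def ck201 : chkAll cl201 = true := by decide +kernel
def ck217 : chkAll cl217 = true := by decide +kernel
def ck233 : chkAll cl233 = true := by decide +kernel
theorem ckG9 : ∀ c ∈ clG9, chkAll c = true :=
  (List.forall_mem_cons.2 ⟨ck9,
    (List.forall_mem_cons.2 ⟨ck25,
    (List.forall_mem_cons.2 ⟨ck41,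
    (List.forall_mem_cons.2 ⟨ck57,
    (List.forall_mem_cons.2 ⟨ck73,
    (List.forall_mem_cons.2 ⟨ck89,
    (List.forall_mem_cons.2 ⟨ck105,
    (List.forall_mem_cons.2 ⟨ck121,
    (List.forall_mem_cons.2 ⟨ck137,
    (List.forall_mem_cons.2 ⟨ck153,
    (List.forall_mem_cons.2 ⟨ck169,
    (List.forall_mem_cons.2 ⟨ck185,
    (List.forall_mem_cons.2 ⟨ck201,
    (List.forall_mem_cons.2 ⟨ck217,
    (List.forall_mem_cons.2 ⟨ck233,
    (fun _ h => nomatch h)⟩)⟩)⟩)⟩)⟩)⟩)⟩)⟩)⟩)⟩)⟩)⟩)⟩)⟩)⟩)
end
end Pool.Agent.Work.MP_f1799f_co.LP.CD
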